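import Pool.Agent.H72.MP.ArithDefs

/-!
Module A3 (the Kummer cocycle of `p`).  Definitions in `Pool/Agent/H72/MP/ArithDefs.lean`.
-/

namespace Pool.Agent.H72.MP

noncomputable section

variable (p : ℕ) [Fact p.Prime] (ℓ : ℕ) [Fact ℓ.Prime]

lemma cyc_spec (g : Gη p) (n : ℕ) (z : PadicAlgCl p) (hz : z ^ (ℓ ^ n) = 1) :
    g z = z ^ (PadicInt.toZModPow n ((cyc p ℓ g : ℤ_[ℓ]ˣ) : ℤ_[ℓ])).val := by
  have : NeZero ((ℓ : ℕ) : PadicAlgCl p) := ⟨by exact_mod_cast (Fact.out : ℓ.Prime).ne_zero⟩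
  exact cyclotomicCharacter.spec ℓ ((MulSemiringAction.toRingAut (Gη p) (PadicAlgCl p)) g) z hz

/-- existence of a primitive root -/
lemma exists_prim (n : ℕ) : ∃ z : PadicAlgCl p, IsPrimitiveRoot z (ℓ ^ n) := by
  have : NeZero ((ℓ : ℕ) : PadicAlgCl p) := ⟨by exact_mod_cast (Fact.out : ℓ.Prime).ne_zero⟩
  exact HasEnoughRootsOfUnity.exists_primitiveRoot _ _

/-- powers of a primitive root of order `ℓ ^ n` -/
lemma prim_pow_eq {n : ℕ} {z : PadicAlgCl p} (hz : IsPrimitiveRoot z (ℓ ^ n)) {a b : ℕ} :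
    z ^ a = z ^ b ↔ (a : ZMod (ℓ ^ n)) = b := by
  have h0 : ℓ ^ n ≠ 0 := pow_ne_zero _ (Fact.out : ℓ.Prime).ne_zero
  have hu := hz.isUnit_unit h0
  have h1 : z ^ a = z ^ b ↔ (hz.isUnit h0).unit ^ a = (hz.isUnit h0).unit ^ b := by
    rw [Units.ext_iff]
    rfl
  rw [h1, ZMod.natCast_eq_natCast_iff, pow_eq_pow_iff_modEq, ← hu.eq_orderOf]

lemma step_prim (n : ℕ) (z : PadicAlgCl p) (hz : IsPrimitiveRoot z (ℓ ^ n)) :
    ∃ z' : PadicAlgCl p, IsPrimitiveRoot z' (ℓ ^ (n + 1)) ∧ z' ^ ℓ = z := by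
  obtain ⟨w, hw⟩ := exists_prim p ℓ (n + 1)
  have hl : ℓ.Prime := Fact.out
  have hw1 : IsPrimitiveRoot (w ^ ℓ) (ℓ ^ n) :=
    hw.pow (pow_pos hl.pos _) (by rw [pow_succ, mul_comm])
  rcases Nat.eq_zero_or_pos n with rfl | hn
  · refine ⟨w, hw, ?_⟩
    rw [pow_zero, IsPrimitiveRoot.one_right_iff] at hz hw1
    rw [hw1, hz]
  · have : NeZero (ℓ ^ n) := ⟨pow_ne_zero _ hl.ne_zero⟩
    obtain ⟨i, _, hic, hi⟩ := (hw1.isPrimitiveRoot_iff).1 hz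
    refine ⟨w ^ i, hw.pow_of_coprime i ?_, ?_⟩
    · exact Nat.Coprime.pow_right _ ((Nat.coprime_pow_right_iff hn _ _).1 hic)
    · rw [← pow_mul, mul_comm, pow_mul, hi]

lemma exists_zeta : ∃ zeta : ℕ → PadicAlgCl p, (∀ n, IsPrimitiveRoot (zeta n) (ℓ ^ n)) ∧
    ∀ n, zeta (n + 1) ^ ℓ = zeta n := by
  choose f hf1 hf2 using step_prim p ℓ
  let s : ∀ n, {z : PadicAlgCl p // IsPrimitiveRoot z (ℓ ^ n)} := fun n =>
    Nat.rec ⟨1, by rw [pow_zero]; exact IsPrimitiveRoot.one⟩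
      (fun n z => ⟨f n z.1 z.2, hf1 n z.1 z.2⟩) n
  exact ⟨fun n => (s n).1, fun n => (s n).2, fun n => hf2 n (s n).1 (s n).2⟩

lemma exists_pi : ∃ pi : ℕ → PadicAlgCl p, pi 0 = (p : PadicAlgCl p) ∧
    ∀ n, pi (n + 1) ^ ℓ = pi n := by
  have h : ∀ x : PadicAlgCl p, ∃ y, y ^ ℓ = x := fun x =>
    IsAlgClosed.exists_pow_nat_eq x (Fact.out : ℓ.Prime).pos
  choose f hf using h
  exact ⟨fun n => Nat.rec (p : PadicAlgCl p) (fun _ z => f z) n, rfl, fun n => hf _⟩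

lemma kum_nonempty : Nonempty (Kum p ℓ) := by
  obtain ⟨zeta, hz, hz'⟩ := exists_zeta p ℓ
  obtain ⟨pi, hpi0, hpi⟩ := exists_pi p ℓ
  have hl : ℓ.Prime := Fact.out
  have hpp : (p : PadicAlgCl p) ≠ 0 := by exact_mod_cast (Fact.out : p.Prime).ne_zero
  have hpin : ∀ n, pi n ^ (ℓ ^ n) = p := by
    intro n
    induction n with
    | zero => rw [pow_zero, pow_one, hpi0]
    | succ n ih => rw [pow_succ', pow_mul, hpi, ih]
  have hpi1 : ∀ n, pi n ≠ 0 := by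
    intro n h
    have h1 := hpin n
    rw [h, zero_pow (pow_ne_zero _ hl.ne_zero)] at h1
    exact hpp h1.symm
  have hex : ∀ (g : Gη p) (n : ℕ), ∃ i : ℕ, g (pi n) = zeta n ^ i * pi n := by
    intro g n
    have : NeZero (ℓ ^ n) := ⟨pow_ne_zero _ hl.ne_zero⟩
    have h1 : (g (pi n) / pi n) ^ (ℓ ^ n) = 1 := by
      rw [div_pow, ← map_pow, hpin, map_natCast, div_self hpp]
    obtain ⟨i, _, hi⟩ := (hz n).eq_pow_of_pow_eq_one h1
    exact ⟨i, by rw [hi, div_mul_cancel₀ _ (hpi1 n)]⟩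
  choose i hi using hex
  have hcomp : ∀ (g : Gη p) (n : ℕ), (ℓ : ℤ) ^ n ∣ (i g (n + 1) : ℤ) - (i g n : ℤ) := by
    intro g n
    have h1 : g (pi n) = zeta n ^ (i g (n + 1)) * pi n := by
      rw [← hpi n, map_pow, hi g (n + 1), mul_pow, ← pow_mul, mul_comm (i g (n + 1)), pow_mul, hz']
    rw [hi g n] at h1
    have h2 := mul_right_cancel₀ (hpi1 n) h1
    rw [prim_pow_eq p ℓ (hz n)] at h2
    have h3 : ((i g n : ℤ) : ZMod (ℓ ^ n)) = ((i g (n + 1) : ℤ) : ZMod (ℓ ^ n)) := by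
      exact_mod_cast h2
    rw [ZMod.intCast_eq_intCast_iff_dvd_sub] at h3
    exact_mod_cast h3
  refine ⟨⟨zeta, hz, hz', pi, hpi0, hpi, fun g => PadicInt.ofIntSeq _
    (PadicInt.isCauSeq_padicNorm_of_pow_dvd_sub (fun n => (i g n : ℤ)) ℓ (hcomp g)), ?_⟩⟩
  intro g n
  rw [PadicInt.toZModPow_ofIntSeq_of_pow_dvd_sub (fun n => (i g n : ℤ)) ℓ (hcomp g) n, hi g n]
  congr 1
  rw [prim_pow_eq p ℓ (hz n)]
  have : NeZero (ℓ ^ n) := ⟨pow_ne_zero _ hl.ne_zero⟩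
  rw [ZMod.natCast_val, ZMod.cast_id]
  simp

variable {p ℓ}

lemma Kum.ϖ_ne_zero (K : Kum p ℓ) (n : ℕ) : K.ϖ n ≠ 0 := by
  have hpp : (p : PadicAlgCl p) ≠ 0 := by exact_mod_cast (Fact.out : p.Prime).ne_zero
  induction n with
  | zero => rwa [K.ϖ_zero]
  | succ n ih =>
    intro h
    have h1 := K.ϖ_succ n
    rw [h, zero_pow (Fact.out : ℓ.Prime).ne_zero] at h1
    exact ih h1.symm

lemma Kum.cocycle (K : Kum p ℓ) (g h : Gη p) :
    K.t (g * h) = K.t g + (cyc p ℓ g : ℤ_[ℓ]ˣ) * K.t h := by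
  rw [← PadicInt.ext_of_toZModPow]
  intro n
  have hl : ℓ.Prime := Fact.out
  have : NeZero (ℓ ^ n) := ⟨pow_ne_zero _ hl.ne_zero⟩
  have h1 := K.ht (g * h) n
  have h2 : (g * h) (K.ϖ n) = g (h (K.ϖ n)) := rfl
  rw [h2, K.ht h n, map_mul, map_pow, K.ht g n, cyc_spec p ℓ g n _ (K.ζ_prim n).pow_eq_one,
    ← mul_assoc, ← pow_mul, ← pow_add] at h1
  have h3 := mul_right_cancel₀ (K.ϖ_ne_zero n) h1
  rw [prim_pow_eq p ℓ (K.ζ_prim n)] at h3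
  push_cast at h3
  simp only [ZMod.natCast_val, ZMod.cast_id] at h3
  rw [← h3, map_add, map_mul, add_comm]

lemma Kum.continuous (K : Kum p ℓ) : Continuous K.t := by
  rw [continuous_iff_continuousAt]
  intro g0
  rw [ContinuousAt, Metric.tendsto_nhds]
  intro ε hε
  obtain ⟨n, hn⟩ := PadicInt.exists_pow_neg_lt ℓ hε
  have hl : ℓ.Prime := Fact.out
  have : NeZero (ℓ ^ n) := ⟨pow_ne_zero _ hl.ne_zero⟩
  have hopen : IsOpen {g : Gη p | g0⁻¹ * g ∈ MulAction.stabilizer (Gη p) (K.ϖ n)} :=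
    (stabilizer_isOpen_of_isIntegral (K := ℚ_[p]) (K.ϖ n)).preimage (continuous_const_mul _)
  have hmem : g0 ∈ {g : Gη p | g0⁻¹ * g ∈ MulAction.stabilizer (Gη p) (K.ϖ n)} := by
    simp
  filter_upwards [hopen.mem_nhds hmem] with g hg
  have hg' : g (K.ϖ n) = g0 (K.ϖ n) := by
    rw [MulAction.mem_stabilizer_iff, mul_smul, inv_smul_eq_iff] at hg
    exact hg
  rw [K.ht, K.ht] at hg'
  have h3 := mul_right_cancel₀ (K.ϖ_ne_zero n) hg'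
  rw [prim_pow_eq p ℓ (K.ζ_prim n)] at h3
  simp only [ZMod.natCast_val, ZMod.cast_id] at h3
  refine lt_of_le_of_lt ?_ hn
  rw [dist_eq_norm, PadicInt.norm_le_pow_iff_mem_span_pow, ← PadicInt.ker_toZModPow,
    RingHom.mem_ker, map_sub, h3, sub_self]

end

end Pool.Agent.H72.MP
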