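import Pool.Agent.H72.MP.PSDefs
import Pool.Agent.H99.P1.Irred

/-!
Module G1 (geometry of the projective line over `𝔽_p`).

`PS p n` is projective space over `ZMod p`.  Needed for `n = 1`: smooth of finite
type over `Spec (ZMod p)`, irreducible, of dimension one, with a rational point.  The two standard charts
`Proj.awayι` are open immersions from `Spec` of `HomogeneousLocalization.Away _ (X i)`, which
is a polynomial ring in one variable.
-/

open CategoryTheory Limits AlgebraicGeometry TopologicalSpace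

attribute [local instance] MvPolynomial.gradedAlgebra

namespace Pool.Agent.H72.MP

open Pool.Agent.H99.P1

theorem toSpec_eq_str (p : ℕ) : PS.toSpec p 1 = str (ZMod p) := rfl

variable (p : ℕ) [Fact p.Prime]

theorem PS_smooth : Smooth (PS.toSpec p 1) := by
  rw [toSpec_eq_str]
  exact (smooth_str (ZMod p)).smooth

theorem PS_locallyOfFiniteType : LocallyOfFiniteType (PS.toSpec p 1) := by
  rw [toSpec_eq_str]
  have := proper_str (ZMod p)
  infer_instance

theorem PS_quasiCompact : QuasiCompact (PS.toSpec p 1) := by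
  rw [toSpec_eq_str]
  have := proper_str (ZMod p)
  infer_instance

instance dom_ch (i : Fin 2) : IsDomain (Ch (ZMod p) i) :=
  (chEquiv (ZMod p) i).symm.toMulEquiv.isDomain (Polynomial (ZMod p))

theorem PS_irreducible : IrreducibleSpace (PS p 1) := by
  let φ : Ch (ZMod p) 0 →+* ZMod p := evalCh (RingHom.id _) 1
  have hφ : φ (crd (ZMod p) 0) ≠ 0 := by
    rw [evalCh_crd]; exact one_ne_zero
  let z : Spec (.of (ZMod p)) := ⟨⊥, Ideal.isPrime_bot⟩
  refine irred_over (R := ZMod p) (𝟙 _) (fun i => ?_) (pt (ZMod p) φ z) (fun i => ?_)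
  · have h0 : IrreducibleSpace ↥(Spec (.of (Ch (ZMod p) i))) := PrimeSpectrum.irreducibleSpace
    let e : pullback (𝟙 (P1 (ZMod p))) (ch (ZMod p) i) ≅ Spec (.of (Ch (ZMod p) i)) :=
      asIso (pullback.snd _ _)
    have h4 := (IrreducibleSpace.isIrreducible_univ
      ↥(Spec (.of (Ch (ZMod p) i)))).image e.inv e.inv.continuous.continuousOn
    have h5 : Function.Surjective e.inv := e.inv.homeomorph.surjective
    rw [Set.image_univ, h5.range_eq] at h4
    exact { isPreirreducible_univ := h4.2, toNonempty := ⟨h4.1.some⟩ }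
  · exact pt_mem (ZMod p) φ hφ z i

theorem dim_ch (i : Fin 2) : topologicalKrullDim ↥(Spec (.of (Ch (ZMod p) i))) = 1 := by
  have h1 : topologicalKrullDim ↥(Spec (.of (Ch (ZMod p) i))) = ringKrullDim (Ch (ZMod p) i) :=
    PrimeSpectrum.topologicalKrullDim_eq_ringKrullDim _
  rw [h1, ← ringKrullDim_eq_of_ringEquiv (chEquiv (ZMod p) i)]
  simp

theorem PS_dim_le : topologicalKrullDim (PS p 1) ≤ 1 := by
  refine dim_le_of_cover (fun i : Fin 2 => ↥(Spec (.of (Ch (ZMod p) i))))
    (fun i => ch (ZMod p) i) (fun i => (ch (ZMod p) i).isOpenEmbedding) (fun x => ?_) 1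
    (fun i => (dim_ch p i).le)
  have := iSup_ch (ZMod p)
  have hx : x ∈ ⨆ i, (ch (ZMod p) i).opensRange := by rw [this]; trivial
  obtain ⟨i, hi⟩ := Opens.mem_iSup.1 hx
  exact ⟨i, hi⟩

theorem PS_le_dim : 1 ≤ topologicalKrullDim (PS p 1) := by
  rw [← dim_ch p 0]
  exact (ch (ZMod p) 0).isOpenEmbedding.isInducing.topologicalKrullDim_le

theorem PS_point : ∃ i : Spec (.of (ZMod p)) ⟶ PS p 1, IsClosedImmersion i ∧
    i ≫ PS.toSpec p 1 = 𝟙 _ := by
  rw [toSpec_eq_str]
  let φ : Ch (ZMod p) 0 →+* ZMod p := evalCh (RingHom.id _) 1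
  have h : pt (ZMod p) φ ≫ str (ZMod p) = 𝟙 _ := by
    rw [pt, Category.assoc, ch_str, ← Spec.map_comp, ← CommRingCat.ofHom_comp]
    have : φ.comp (cst (ZMod p) 0) = RingHom.id _ := by
      ext r
      rw [RingHom.comp_apply, evalCh_cst]
    rw [this]
    exact Spec.map_id _
  refine ⟨pt (ZMod p) φ, ?_, h⟩
  have : IsClosedImmersion (pt (ZMod p) φ ≫ str (ZMod p)) := by rw [h]; infer_instance
  exact IsClosedImmersion.of_comp _ (str (ZMod p))

/-- A non-empty locally closed subscheme of the spectrum of a field is everything. -/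
theorem isIso_of_immersion_field (k : Type) [Field k] (Z : Scheme.{0}) (i : Z ⟶ Spec (.of k))
    [IsImmersion i] [Nonempty Z] : IsIso i := by
  have hsub : Subsingleton ↥(Spec (CommRingCat.of k)) :=
    inferInstanceAs (Subsingleton (PrimeSpectrum k))
  have hr : Set.range i = Set.univ := by
    rw [Set.eq_univ_iff_forall]
    intro x
    obtain ⟨z⟩ := ‹Nonempty Z›
    exact ⟨z, Subsingleton.elim _ _⟩
  have h1 : IsClosedImmersion i := .of_isPreimmersion _ (by rw [hr]; exact isClosed_univ)
  have h2 : Surjective i := ⟨fun x => by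
    have : x ∈ Set.range i := by rw [hr]; trivial
    exact this⟩
  exact isIso_of_isClosedImmersion_of_surjective i

theorem dim_field (k : Type) [Field k] : topologicalKrullDim (Spec (.of k)) = 0 := by
  have h1 : topologicalKrullDim ↥(Spec (.of k)) = ringKrullDim k :=
    PrimeSpectrum.topologicalKrullDim_eq_ringKrullDim _
  rw [h1, ringKrullDim_eq_zero_of_field]

theorem dim_le_of_immersion_field (k : Type) [Field k] (Z : Scheme.{0}) (i : Z ⟶ Spec (.of k))
    [IsImmersion i] : topologicalKrullDim Z ≤ 0 := by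
  rw [← dim_field k]
  exact i.isEmbedding.isInducing.topologicalKrullDim_le

end Pool.Agent.H72.MP
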