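import Pool.Agent.H72.MP.ArithDefs

/-!
Module A2 (the cyclotomic character on inertia and on lifts of the Frobenius).
Definitions in `Pool/Agent/H72/MP/ArithDefs.lean`.
-/

namespace Pool.Agent.H72.MP

variable (p : ℕ) [Fact p.Prime] (ℓ : ℕ) [Fact ℓ.Prime]

/-- reduction is injective on roots of unity of order prime to `p` -/
theorem A2_root_eq_one {N : ℕ} (hN : ¬ p ∣ N) (z : OO p) (hz : z ^ N = 1)
    (h1 : IsLocalRing.residue (OO p) z = 1) : z = 1 := by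
  by_contra hne
  have h2 : (∑ i ∈ Finset.range N, z ^ i) * (z - 1) = 0 := by
    rw [geom_sum_mul, hz, sub_self]
  rcases mul_eq_zero.1 h2 with h | h
  · have h3 := congrArg (IsLocalRing.residue (OO p)) h
    rw [map_sum, map_zero] at h3
    simp only [map_pow, h1, one_pow, Finset.sum_const, Finset.card_range, nsmul_eq_mul,
      mul_one] at h3
    exact hN ((CharP.cast_eq_zero_iff (kb p) p N).1 h3)
  · exact hne (sub_eq_zero.1 h)

theorem A2_pow_eq {N : ℕ} (hN : ¬ p ∣ N) (hN0 : N ≠ 0) (z : OO p) (hz : z ^ N = 1) {A B : ℕ}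
    (h1 : IsLocalRing.residue (OO p) (z ^ A) = IsLocalRing.residue (OO p) (z ^ B)) :
    z ^ A = z ^ B := by
  have hu : z * z ^ (N - 1) = 1 := by
    rw [← pow_succ', Nat.sub_add_cancel (Nat.one_le_iff_ne_zero.2 hN0), hz]
  have huB : z ^ B * (z ^ (N - 1)) ^ B = 1 := by rw [← mul_pow, hu, one_pow]
  have hw : z ^ A * (z ^ (N - 1)) ^ B = 1 := by
    refine A2_root_eq_one p hN _ ?_ ?_
    · rw [mul_pow, pow_right_comm z A, pow_right_comm (z ^ (N - 1)) B, pow_right_comm z (N - 1), hz,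
        one_pow, one_pow, one_pow, one_mul]
    · rw [map_mul, h1, ← map_mul, huB, map_one]
  calc z ^ A = z ^ A * (z ^ B * (z ^ (N - 1)) ^ B) := by rw [huB, mul_one]
    _ = (z ^ A * (z ^ (N - 1)) ^ B) * z ^ B := by ring
    _ = z ^ B := by rw [hw, one_mul]

theorem A2_rho (g : Gη p) (z : OO p) (w : OO p) (h : (w : PadicAlgCl p) = g z) :
    ρη p g (IsLocalRing.residue (OO p) z) = IsLocalRing.residue (OO p) w := by
  have e : w = actO p g z := Subtype.ext h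
  rw [e]
  rfl

/-- the main computation -/
theorem A2_main (hℓ : ℓ ≠ p) (g : Gη p) (q : ℕ) (hg : ∀ x, ρη p g x = x ^ q) :
    ((cyc p ℓ g : ℤ_[ℓ]ˣ) : ℤ_[ℓ]) = (q : ℤ_[ℓ]) := by
  rw [← PadicInt.ext_of_toZModPow]
  intro m
  have : NeZero ((ℓ : ℕ) : PadicAlgCl p) := ⟨by exact_mod_cast (Fact.out : ℓ.Prime).ne_zero⟩
  obtain ⟨z, hz⟩ := HasEnoughRootsOfUnity.exists_primitiveRoot (PadicAlgCl p) (ℓ ^ m)
  have hz1 : z ^ (ℓ ^ m) = 1 := hz.pow_eq_one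
  have hlm : ℓ ^ m ≠ 0 := pow_ne_zero _ (Fact.out : ℓ.Prime).ne_zero
  have hzn : ‖z‖ = 1 := by
    have h1 : ‖z‖ ^ (ℓ ^ m) = 1 := by rw [← norm_pow, hz1, norm_one]
    exact (pow_eq_one_iff_of_nonneg (norm_nonneg z) hlm).1 h1
  have hzO : z ∈ OO p := (mem_OO p).2 hzn.le
  set a := (PadicInt.toZModPow m ((cyc p ℓ g : ℤ_[ℓ]ˣ) : ℤ_[ℓ])).val with ha
  have hgz : g z = z ^ a :=
    cyclotomicCharacter.spec ℓ ((MulSemiringAction.toRingAut (Gη p) (PadicAlgCl p)) g) z hz1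
  set Z : OO p := ⟨z, hzO⟩ with hZ
  have hZ1 : Z ^ (ℓ ^ m) = 1 := by
    ext
    exact hz1
  have h1 := A2_rho p g Z (Z ^ a) hgz.symm
  rw [hg, ← map_pow] at h1
  have hN : ¬ p ∣ ℓ ^ m := by
    intro h
    have h2 := (Fact.out : p.Prime).dvd_of_dvd_pow h
    exact hℓ ((Nat.prime_dvd_prime_iff_eq (Fact.out : p.Prime) (Fact.out : ℓ.Prime)).1 h2).symm
  have hw2 := A2_pow_eq p hN hlm Z hZ1 h1
  have hw3 : z ^ q = z ^ a := congrArg Subtype.val hw2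
  have hu := hz.isUnit_unit hlm
  have h4 : (hz.isUnit hlm).unit ^ q = (hz.isUnit hlm).unit ^ a := Units.ext hw3
  rw [pow_eq_pow_iff_modEq, ← hu.eq_orderOf, ← ZMod.natCast_eq_natCast_iff] at h4
  have : NeZero (ℓ ^ m) := ⟨hlm⟩
  rw [map_natCast, h4, ha, ZMod.natCast_val, ZMod.cast_id]

theorem cyc_inertia (hℓ : ℓ ≠ p) (g : Gη p) (hg : ρη p g = 1) : cyc p ℓ g = 1 := by
  have h := A2_main p ℓ hℓ g 1 (by intro x; rw [hg, pow_one]; rfl)
  rw [Nat.cast_one] at h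
  exact Units.ext h

theorem cyc_frob (hℓ : ℓ ≠ p) (g : Gη p) (φ : Gs p) (hφ : IsFrob p φ)
    (hg : ρη p g = ρs p φ) : ((cyc p ℓ g : ℤ_[ℓ]ˣ) : ℤ_[ℓ]) = (p : ℤ_[ℓ]) :=
  A2_main p ℓ hℓ g p (by intro x; rw [hg]; exact hφ x)

end Pool.Agent.H72.MP
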