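import Pool.Agent.H72.MP.ArithDefs

/-!
Module A1 (arithmetic of the residue field `kb p` of the algebraic closure of `ℚ_p`).
Definitions in `Pool/Agent/H72/MP/ArithDefs.lean`; `OO p` is the closed unit ball of
`PadicAlgCl p` and `kb p` its residue field.

* `kb_isAlgClosed`: lift a monic polynomial over `kb p` to a monic polynomial over `OO p`; it has
  a root in `PadicAlgCl p`, which lies in `OO p` (a valuation ring is integrally closed), and one
  takes its residue.
* `kb_isAlgebraic`: an element of `OO p` is integral over `ℤ_[p]` (its minimal polynomial over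
  `ℚ_[p]` has coefficients of norm at most one, by the definition of the spectral norm), and
  the residue field of `ℤ_[p]` is `ZMod p`.
* `exists_frob`: the Frobenius of an algebraically closed field of characteristic `p`
  is bijective.
-/

namespace Pool.Agent.H72.MP

variable (p : ℕ) [Fact p.Prime]

lemma residue_surj : Function.Surjective (IsLocalRing.residue (OO p)) :=
  IsLocalRing.residue_surjective

/-- units of the ring of integers -/
lemma isUnit_OO (x : OO p) : IsUnit x ↔ ‖(x : PadicAlgCl p)‖ = 1 := by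
  constructor
  · intro h
    obtain ⟨y, hy⟩ := h.exists_right_inv
    have h1 : (x : PadicAlgCl p) * y = 1 := congrArg Subtype.val hy
    have h2 := congrArg norm h1
    rw [norm_mul, norm_one] at h2
    have hx := (mem_OO p).1 x.2
    have hy := (mem_OO p).1 y.2
    have hx0 := norm_nonneg (x : PadicAlgCl p)
    have hy0 := norm_nonneg (y : PadicAlgCl p)
    nlinarith
  · intro h
    have hx0 : (x : PadicAlgCl p) ≠ 0 := by
      intro h0
      rw [h0, norm_zero] at h
      exact zero_ne_one h
    refine IsUnit.of_mul_eq_one ⟨(x : PadicAlgCl p)⁻¹, ?_⟩ ?_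
    · rw [mem_OO, norm_inv, h, inv_one]
    · ext
      exact mul_inv_cancel₀ hx0

lemma residue_eq_zero_iff_norm (x : OO p) :
    IsLocalRing.residue (OO p) x = 0 ↔ ‖(x : PadicAlgCl p)‖ < 1 := by
  rw [IsLocalRing.residue_eq_zero_iff, IsLocalRing.mem_maximalIdeal, mem_nonunits_iff,
    isUnit_OO]
  exact ⟨fun h => lt_of_le_of_ne ((mem_OO p).1 x.2) h, fun h => h.ne⟩

theorem kb_isAlgClosed : IsAlgClosed (kb p) := by
  refine IsAlgClosed.of_exists_root _ fun f hf hirr => ?_
  have hl : f ∈ Polynomial.lifts (IsLocalRing.residue (OO p)) := by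
    rw [Polynomial.mem_lifts]
    exact Polynomial.map_surjective _ (residue_surj p) f
  obtain ⟨q, hq1, hq2, hq3⟩ := Polynomial.lifts_and_natDegree_eq_and_monic hl hf
  have hd : f.natDegree ≠ 0 := hirr.natDegree_pos.ne'
  have hdq : (q.map (algebraMap (OO p) (PadicAlgCl p))).degree ≠ 0 := by
    rw [Polynomial.Monic.degree_map hq3]
    intro h0
    have := Polynomial.natDegree_eq_zero_iff_degree_le_zero.2 h0.le
    omega
  obtain ⟨x, hx⟩ := IsAlgClosed.exists_root _ hdq
  have hint : IsIntegral (OO p) x := by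
    refine ⟨q, hq3, ?_⟩
    rw [← Polynomial.eval_map]
    exact hx
  obtain ⟨y, hy⟩ := IsIntegrallyClosed.isIntegral_iff.1 hint
  refine ⟨IsLocalRing.residue (OO p) y, ?_⟩
  have h1 : q.eval y = 0 := by
    have h2 : algebraMap (OO p) (PadicAlgCl p) (q.eval y) = 0 := by
      rw [← Polynomial.eval_map_apply, hy]
      exact hx
    have h3 : Function.Injective (algebraMap (OO p) (PadicAlgCl p)) :=
      FaithfulSMul.algebraMap_injective _ _
    exact h3 (by rw [h2, map_zero])
  rw [← hq1, Polynomial.eval_map_apply, h1, map_zero]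

/-- the inclusion of the `p`-adic integers -/
noncomputable def iotaZ : ℤ_[p] →+* OO p :=
  ((algebraMap ℚ_[p] (PadicAlgCl p)).comp (PadicInt.Coe.ringHom (p := p))).codRestrict
    (OO p).toSubring (fun x => by
      change algebraMap ℚ_[p] (PadicAlgCl p) (x : ℚ_[p]) ∈ OO p
      rw [mem_OO]
      exact (PadicAlgCl.norm_extends p (x : ℚ_[p])).trans_le x.2)

lemma coe_iotaZ (x : ℤ_[p]) :
    ((iotaZ p x : OO p) : PadicAlgCl p) = algebraMap ℚ_[p] (PadicAlgCl p) (x : ℚ_[p]) := rfl

lemma residue_iotaZ (x : ℤ_[p]) :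
    IsLocalRing.residue (OO p) (iotaZ p x) = ((x.zmodRepr : ℕ) : kb p) := by
  rw [← map_natCast (IsLocalRing.residue (OO p)), ← sub_eq_zero, ← map_sub,
    residue_eq_zero_iff_norm, ← map_natCast (iotaZ p), ← map_sub, coe_iotaZ]
  refine (PadicAlgCl.norm_extends p _).trans_lt ?_
  exact PadicInt.norm_sub_zmodRepr_lt_one x

lemma exists_monic_int (x : OO p) : ∃ F : Polynomial ℤ_[p], F.Monic ∧
    F.eval₂ (iotaZ p) x = 0 := by
  have hx : ‖(x : PadicAlgCl p)‖ ≤ 1 := (mem_OO p).1 x.2
  have hint : IsIntegral ℚ_[p] (x : PadicAlgCl p) := Algebra.IsIntegral.isIntegral _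
  have hmon := minpoly.monic hint
  have h1 : spectralValue (minpoly ℚ_[p] (x : PadicAlgCl p)) ≤ 1 := hx
  have h2 := (spectralValue_le_one_iff hmon).1 h1
  have hl : minpoly ℚ_[p] (x : PadicAlgCl p) ∈
      Polynomial.lifts (PadicInt.Coe.ringHom (p := p)) := by
    rw [Polynomial.lifts_iff_coeff_lifts]
    intro n
    exact ⟨⟨_, h2 n⟩, rfl⟩
  obtain ⟨F, hF1, hF2, hF3⟩ := Polynomial.lifts_and_natDegree_eq_and_monic hl hmon
  refine ⟨F, hF3, ?_⟩
  have h3 : (algebraMap (OO p) (PadicAlgCl p)) (F.eval₂ (iotaZ p) x) = 0 := by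
    rw [Polynomial.hom_eval₂]
    have h4 := minpoly.aeval ℚ_[p] (x : PadicAlgCl p)
    rw [← hF1, Polynomial.aeval_def, Polynomial.eval₂_map] at h4
    exact h4
  have h5 : Function.Injective (algebraMap (OO p) (PadicAlgCl p)) :=
    FaithfulSMul.algebraMap_injective _ _
  exact h5 (by rw [h3, map_zero])

theorem kb_isAlgebraic : Algebra.IsAlgebraic (ZMod p) (kb p) := by
  refine ⟨fun a => ?_⟩
  obtain ⟨x, rfl⟩ := residue_surj p a
  obtain ⟨F, hF, hx⟩ := exists_monic_int p x
  have hcomp : (IsLocalRing.residue (OO p)).comp (iotaZ p) =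
      (algebraMap (ZMod p) (kb p)).comp (PadicInt.toZMod (p := p)) := by
    refine RingHom.ext fun y => ?_
    rw [RingHom.comp_apply, RingHom.comp_apply, residue_iotaZ]
    have h1 : (PadicInt.toZMod (p := p) y) = ((y.zmodRepr : ℕ) : ZMod p) := by
      rw [← PadicInt.val_toZMod_eq_zmodRepr, ZMod.natCast_zmod_val]
    rw [h1, map_natCast]
  have hint : IsIntegral (ZMod p) (IsLocalRing.residue (OO p) x) := by
    refine ⟨F.map (PadicInt.toZMod (p := p)), hF.map _, ?_⟩
    rw [Polynomial.eval₂_map, ← hcomp, ← Polynomial.hom_eval₂, hx, map_zero]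
  exact hint.isAlgebraic

/-- every element of the residue field lies in a finite field -/
lemma kb_pow (a : kb p) : ∃ n : ℕ, 0 < n ∧ a ^ (p ^ n) = a := by
  have hint : IsIntegral (ZMod p) a := (kb_isAlgebraic p).isAlgebraic a |>.isIntegral
  have : FiniteDimensional (ZMod p) (IntermediateField.adjoin (ZMod p) {a}) :=
    IntermediateField.adjoin.finiteDimensional hint
  have : Finite (IntermediateField.adjoin (ZMod p) {a}) := Module.finite_of_finite (ZMod p)
  have : Fintype (IntermediateField.adjoin (ZMod p) {a}) := Fintype.ofFinite _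
  have : CharP (IntermediateField.adjoin (ZMod p) {a}) p :=
    charP_of_injective_algebraMap
      (algebraMap (ZMod p) (IntermediateField.adjoin (ZMod p) {a})).injective p
  obtain ⟨n, -, hn⟩ := FiniteField.card (IntermediateField.adjoin (ZMod p) {a}) p
  refine ⟨n, n.pos, ?_⟩
  have h6 := FiniteField.pow_card
    (⟨a, IntermediateField.mem_adjoin_simple_self (ZMod p) a⟩ :
      IntermediateField.adjoin (ZMod p) {a})
  rw [hn] at h6
  exact congrArg Subtype.val h6

lemma frobenius_bij : Function.Bijective (frobenius (kb p) p) := by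
  refine ⟨(frobenius (kb p) p).injective, fun a => ?_⟩
  obtain ⟨n, hn, h⟩ := kb_pow p a
  refine ⟨a ^ (p ^ (n - 1)), ?_⟩
  rw [frobenius_def, ← pow_mul, ← pow_succ, Nat.sub_add_cancel hn]
  exact h

theorem exists_frob : ∃ φ : Gs p, IsFrob p φ := by
  refine ⟨AlgEquiv.ofRingEquiv (f := RingEquiv.ofBijective (frobenius (kb p) p)
    (frobenius_bij p)) ?_, fun x => rfl⟩
  intro r
  change (algebraMap (ZMod p) (kb p) r) ^ p = _
  rw [← map_pow, ZMod.pow_card]

end Pool.Agent.H72.MP
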