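import Pool.Agent.H72.MP.ArithDefs
import Pool.Agent.H72.MP.Mod.A1
import Pool.Agent.H72.MP.Mod.A2
import Pool.Agent.H72.MP.Mod.A3

/-!
Module A4 (lifting the Frobenius, the section, non-triviality of the tame character on inertia).
Definitions in `Pool/Agent/H72/MP/ArithDefs.lean`; you may use the statements of
A1, A2, A3 (still with `sorry`, other seats work on them).

* `exists_lift`: there is `g` in the absolute Galois group of `ℚ_p` acting on
  `kb p` as a given element of `Gs p`; the tool in Mathlib is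
  `Mathlib/RingTheory/Invariant/Profinite.lean`
  (`Ideal.Quotient.stabilizerHom_surjective_of_profinite` for `A = ℤ_[p]`,
  `B = OO p` with the action of `Gη p`, `Q` the maximal ideal).  If the algebraic set-up is
  painful, it suffices to lift the Frobenius.
* `ρη_continuous`: for every `x : kb p` the map `g ↦ ρη p g x` is locally constant (lift `x` to
  `OO p` and use the Krull topology).
* `exists_sec`: let `φ` be a lift of the Frobenius and `S` the closure of the subgroup
  generated by `φ` (compact).  Its image in `Gs p` is compact and contains the powers of the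
  Frobenius, which are dense, hence it is everything.  `S → Gs p` is injective: if
  `s` in `S` acts trivially on `kb p` and `L` is a finite Galois extension of `ℚ_p`, let `m` be the order
  of the image of `φ` in its Galois group.  The set of `g` with `g = s` on `L` and `ρη g` trivial on the
  subfield of `kb p` with `p ^ m` elements is open and contains `s`, so it contains some
  `φ ^ n`; then `m ∣ n` so `s = φ ^ n = 1` on `L`.  A continuous bijection from a compact space to a Hausdorff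
  space is a homeomorphism; its inverse is the section.
* `Kum.exists_inertia`: otherwise `t` is trivial on inertia, and by the cocycle identity
  and continuity `(p - 1) t s = t φ * (χ s - 1)` holds on the closure `S` of the powers of the lift `φ`,
  hence on the whole group `S * I`.  Let `b = t φ / (p - 1)` in `ℚ_[ℓ]` and choose `m` with
  `b * ℓ ^ m` in `ℤ_[ℓ]`.
  Then, for `n > m`, `u = ϖ n ^ (ℓ ^ m) * ζ n ^ (- ℓ ^ m b) = ϖ (n - m) * (root of unity)` is fixed by
  the whole Galois group, so it lies in `ℚ_[p]`, but its norm is `p ^ (-1 / ℓ ^ (n - m))`, which is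
  not an integral power of `p`.
-/

namespace Pool.Agent.H72.MP

open Topology

variable (p : ℕ) [Fact p.Prime]

instance : IsAlgClosed (kb p) := kb_isAlgClosed p

instance : Algebra.IsAlgebraic (ZMod p) (kb p) := kb_isAlgebraic p

instance : IsAlgClosure (ZMod p) (kb p) := ⟨kb_isAlgClosed p, kb_isAlgebraic p⟩

instance : IsGalois (ZMod p) (kb p) where

/-- the action of the Galois group on the ring of integers -/
noncomputable instance actOInst : MulSemiringAction (Gη p) (OO p) :=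
  MulSemiringAction.compHom _ (actO p)

lemma coe_smul_OO (g : Gη p) (x : OO p) : ((g • x : OO p) : PadicAlgCl p) = g x := rfl

lemma smul_residue (g : Gη p) (x : OO p) :
    ρη p g (IsLocalRing.residue (OO p) x) = IsLocalRing.residue (OO p) (g • x) := rfl

lemma fixed_residue (b : OO p) (hb : ∀ g : Gη p, g • b = b) :
    ∃ n : ZMod p, algebraMap (ZMod p) (kb p) n = IsLocalRing.residue (OO p) b := by
  have h1 : ∀ g : Gη p, g (b : PadicAlgCl p) = b := fun g => congrArg Subtype.val (hb g)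
  have h2 := (InfiniteGalois.mem_bot_iff_fixed (k := ℚ_[p]) (b : PadicAlgCl p)).2 h1
  obtain ⟨c, hc⟩ := IntermediateField.mem_bot.1 h2
  have hc1 : ‖c‖ ≤ 1 := by
    have h3 : ‖algebraMap ℚ_[p] (PadicAlgCl p) c‖ = ‖c‖ := PadicAlgCl.norm_extends p c
    rw [← h3, hc]
    exact (mem_OO p).1 b.2
  obtain ⟨y, hy⟩ : ∃ y : ℤ_[p], (y : ℚ_[p]) = c := ⟨⟨c, hc1⟩, rfl⟩
  have h4 : b = iotaZ p y := Subtype.ext (by rw [coe_iotaZ, hy]; exact hc.symm)
  exact ⟨((y.zmodRepr : ℕ) : ZMod p), by rw [h4, residue_iotaZ, map_natCast]⟩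

theorem exists_lift (h : Gs p) : ∃ g : Gη p, ρη p g = ρs p h := by
  let _ : TopologicalSpace (OO p) := ⊥
  have : DiscreteTopology (OO p) := ⟨rfl⟩
  have : ContinuousSMul (Gη p) (OO p) := by
    rw [continuousSMul_iff_stabilizer_isOpen]
    intro x
    have h1 : IsOpen (MulAction.stabilizer (Gη p) (x : PadicAlgCl p) : Set (Gη p)) :=
      stabilizer_isOpen_of_isIntegral (x : PadicAlgCl p)
    have h2 : MulAction.stabilizer (Gη p) (x : PadicAlgCl p) ≤
        MulAction.stabilizer (Gη p) x := by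
      intro g hg
      rw [MulAction.mem_stabilizer_iff] at hg ⊢
      exact Subtype.ext hg
    exact Subgroup.isOpen_mono h2 h1
  let A := FixedPoints.subring (OO p) (Gη p)
  have : Algebra.IsInvariant A (OO p) (Gη p) := ⟨fun b hb => ⟨⟨b, hb⟩, rfl⟩⟩
  let Q : Ideal (OO p) := IsLocalRing.maximalIdeal (OO p)
  let P : Ideal A := Q.under A
  have : Q.LiesOver P := ⟨rfl⟩
  have hsurj := Ideal.Quotient.stabilizerHom_surjective_of_profinite (G := Gη p) P Q
  let σ0 : (OO p ⧸ Q) ≃+* (OO p ⧸ Q) := ρs p h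
  let σ : (OO p ⧸ Q) ≃ₐ[A ⧸ P] (OO p ⧸ Q) := AlgEquiv.ofRingEquiv (f := σ0) (by
    intro r
    obtain ⟨b, rfl⟩ := Ideal.Quotient.mk_surjective r
    obtain ⟨n, hn⟩ := fixed_residue p b.1 b.2
    change h (IsLocalRing.residue (OO p) b.1) = IsLocalRing.residue (OO p) b.1
    rw [← hn, h.commutes])
  obtain ⟨g, hg⟩ := hsurj σ
  refine ⟨g, RingEquiv.ext fun c => ?_⟩
  obtain ⟨x, rfl⟩ := residue_surj p c
  exact DFunLike.congr_fun hg (Ideal.Quotient.mk Q x)

/-- the projection of the absolute Galois groups -/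
noncomputable def toGs : Gη p →* Gs p where
  toFun g := AlgEquiv.ofRingEquiv (f := ρη p g) (fun r => by
    obtain ⟨n, rfl⟩ := ZMod.natCast_zmod_surjective r
    rw [map_natCast, map_natCast])
  map_one' := by
    ext x
    change ρη p 1 x = x
    rw [map_one]
    rfl
  map_mul' g h := by
    ext x
    change ρη p (g * h) x = ρη p g (ρη p h x)
    rw [map_mul]
    rfl

lemma toGs_apply (g : Gη p) (x : kb p) : toGs p g x = ρη p g x := rfl

lemma isOpen_fix (a : kb p) : IsOpen {g : Gη p | ρη p g a = a} := by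
  obtain ⟨x, rfl⟩ := residue_surj p a
  have h1 : IsOpen (MulAction.stabilizer (Gη p) (x : PadicAlgCl p) : Set (Gη p)) :=
    stabilizer_isOpen_of_isIntegral (x : PadicAlgCl p)
  let H : Subgroup (Gη p) :=
    { carrier := {g : Gη p | ρη p g (IsLocalRing.residue (OO p) x) = IsLocalRing.residue (OO p) x}
      mul_mem' := by
        intro a b ha hb
        change ρη p (a * b) _ = _
        have hb' : ρη p b (IsLocalRing.residue (OO p) x) = IsLocalRing.residue (OO p) x := hb
        have ha' : ρη p a (IsLocalRing.residue (OO p) x) = IsLocalRing.residue (OO p) x := ha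
        rw [map_mul]
        exact (congrArg (ρη p a) hb').trans ha'
      one_mem' := by
        change ρη p 1 _ = _
        rw [map_one]
        rfl
      inv_mem' := by
        intro a ha
        change ρη p a⁻¹ _ = _
        rw [map_inv]
        exact (RingEquiv.symm_apply_eq _).2 ha.symm }
  have h2 : MulAction.stabilizer (Gη p) (x : PadicAlgCl p) ≤ H := by
    intro g hg
    rw [MulAction.mem_stabilizer_iff] at hg
    change ρη p g _ = _
    rw [smul_residue]
    exact congrArg _ (Subtype.ext hg)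
  exact Subgroup.isOpen_mono h2 h1

lemma continuous_toGs : Continuous (toGs p) := by
  refine continuous_of_continuousAt_one _ ?_
  rw [ContinuousAt, map_one]
  intro U hU
  obtain ⟨E, hE, hEU⟩ := (krullTopology_mem_nhds_one_iff (ZMod p) (kb p) U).1 hU
  have : Finite E := Module.finite_of_finite (ZMod p)
  have h1 : IsOpen (⋂ a : E, {g : Gη p | ρη p g a = a}) :=
    isOpen_iInter_of_finite fun a => isOpen_fix p a
  rw [Filter.mem_map]
  refine Filter.mem_of_superset (h1.mem_nhds (Set.mem_iInter.2 fun a => ?_)) ?_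
  · change ρη p 1 _ = _
    rw [map_one]
    rfl
  · intro g hg
    refine hEU ?_
    rw [SetLike.mem_coe, IntermediateField.mem_fixingSubgroup_iff]
    intro a ha
    exact Set.mem_iInter.1 hg ⟨a, ha⟩

/-- fixed elements of the Frobenius -/
lemma mem_bot_of_pow (a : kb p) (ha : a ^ p = a) : a ∈ (⊥ : IntermediateField (ZMod p) (kb p)) := by
  rw [IntermediateField.mem_bot]
  have hp : 1 < p := (Fact.out : p.Prime).one_lt
  classical
  set f : Polynomial (kb p) := Polynomial.X ^ p - Polynomial.X with hf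
  have hf0 : f ≠ 0 := FiniteField.X_pow_card_sub_X_ne_zero (kb p) hp
  have hd : f.natDegree = p := FiniteField.X_pow_card_sub_X_natDegree_eq (kb p) hp
  have hroots : ∀ b : kb p, b ∈ f.roots.toFinset ↔ b ^ p = b := by
    intro b
    rw [Multiset.mem_toFinset, Polynomial.mem_roots hf0, Polynomial.IsRoot, hf,
      Polynomial.eval_sub, Polynomial.eval_pow, Polynomial.eval_X, sub_eq_zero]
  let S : Finset (kb p) := Finset.univ.image (algebraMap (ZMod p) (kb p))
  have hS : S.card = p := by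
    rw [Finset.card_image_of_injective _ (algebraMap (ZMod p) (kb p)).injective,
      Finset.card_univ, ZMod.card]
  have hsub : S ⊆ f.roots.toFinset := by
    intro b hb
    obtain ⟨c, -, rfl⟩ := Finset.mem_image.1 hb
    rw [hroots, ← map_pow, ZMod.pow_card]
  have hcard : f.roots.toFinset.card ≤ S.card := by
    rw [hS]
    exact (Multiset.toFinset_card_le _).trans ((Polynomial.card_roots' f).trans hd.le)
  have heq := Finset.eq_of_subset_of_card_le hsub hcard
  have h1 : a ∈ S := by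
    rw [heq, hroots]
    exact ha
  obtain ⟨c, -, hc⟩ := Finset.mem_image.1 h1
  exact ⟨c, hc⟩

/-- a closed subgroup containing a Frobenius is everything -/
lemma closed_frob (H : ClosedSubgroup (Gs p)) (φ : Gs p) (hφ : IsFrob p φ)
    (hmem : φ ∈ H.toSubgroup) : H.toSubgroup = ⊤ := by
  have h1 := InfiniteGalois.fixingSubgroup_fixedField (k := ZMod p) (K := kb p) H
  have h2 : IntermediateField.fixedField H.toSubgroup =
      (⊥ : IntermediateField (ZMod p) (kb p)) := by
    rw [eq_bot_iff]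
    intro a ha
    rw [IntermediateField.mem_fixedField_iff] at ha
    have h3 := ha φ hmem
    rw [hφ a] at h3
    exact mem_bot_of_pow p a h3
  rw [h2, IntermediateField.fixingSubgroup_bot] at h1
  exact h1.symm

variable {p} in
theorem exists_pow_mem (U : Subgroup (Gη p)) (hU : IsOpen (U : Set (Gη p))) (g : Gη p) :
    ∃ m : ℕ, 0 < m ∧ g ^ m ∈ U := by
  have h0 : Finite (Gη p ⧸ U) := U.quotient_finite_of_isOpen hU
  have h1 : U.FiniteIndex := U.finiteIndex_of_finite_quotient
  obtain ⟨n, h2, -, h3⟩ := Subgroup.exists_pow_mem_of_index_ne_zero h1.index_ne_zero g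
  exact ⟨n, h2, h3⟩

lemma closed_frob' (φ : Gη p) (f : Gs p) (hf : IsFrob p f) (hφ : ρη p φ = ρs p f)
    (H : Subgroup (Gη p)) (hH : IsClosed (H : Set (Gη p))) (hm : φ ∈ H) (h : Gs p) :
    ∃ s ∈ H, toGs p s = h := by
  let K : ClosedSubgroup (Gs p) :=
    { toSubgroup := H.map (toGs p)
      isClosed' := by
        have h1 : IsCompact (H : Set (Gη p)) := hH.isCompact
        have h2 := h1.image (continuous_toGs p)
        exact h2.isClosed }
  have hf2 : toGs p φ = f := by
    ext x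
    rw [toGs_apply, hφ]
    rfl
  have h3 := closed_frob p K f hf ⟨φ, hm, hf2⟩
  have h4 : h ∈ K.toSubgroup := by rw [h3]; exact Subgroup.mem_top h
  obtain ⟨s, hs, hs2⟩ := h4
  exact ⟨s, hs, hs2⟩

/-- an element detecting divisibility by `m` -/
lemma exists_detect (m : ℕ) (hm : 0 < m) : ∃ a : kb p, ∀ n : ℕ, a ^ (p ^ n) = a → m ∣ n := by
  have hp : p.Prime := Fact.out
  have hpm : 1 ≤ p ^ m := Nat.one_le_pow _ _ hp.pos
  have hne : ((p ^ m - 1 : ℕ) : kb p) ≠ 0 := by
    rw [Nat.cast_sub hpm, Nat.cast_pow, CharP.cast_eq_zero (kb p) p, zero_pow hm.ne']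
    simp
  have : NeZero ((p ^ m - 1 : ℕ) : kb p) := ⟨hne⟩
  obtain ⟨a, ha⟩ := HasEnoughRootsOfUnity.exists_primitiveRoot (kb p) (p ^ m - 1)
  have hne' : p ^ m - 1 ≠ 0 := by
    intro h
    rw [h] at hne
    exact hne (by simp)
  refine ⟨a, fun n hn => ?_⟩
  have ha0 : a ≠ 0 := ha.ne_zero hne'
  have hpn : 1 ≤ p ^ n := Nat.one_le_pow _ _ hp.pos
  have h1 : a ^ (p ^ n - 1) = 1 := by
    have h2 : a ^ (p ^ n - 1) * a = 1 * a := by
      rw [← pow_succ, Nat.sub_add_cancel hpn, hn, one_mul]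
    exact mul_right_cancel₀ ha0 h2
  have h3 : p ^ m - 1 ∣ p ^ n - 1 := ha.dvd_of_pow_eq_one _ h1
  have h4 := Nat.pow_sub_one_gcd_pow_sub_one p m n
  rw [Nat.gcd_eq_left h3] at h4
  have h5 : p ^ m = p ^ (Nat.gcd m n) := by
    have h6 : 1 ≤ p ^ (Nat.gcd m n) := Nat.one_le_pow _ _ hp.pos
    omega
  have h7 := Nat.pow_right_injective hp.two_le h5
  rw [h7]
  exact Nat.gcd_dvd_right m n

lemma frob_pow_apply (φ : Gη p) (f : Gs p) (hf : IsFrob p f) (hφ : ρη p φ = ρs p f)
    (a : kb p) (n : ℕ) : ρη p (φ ^ n) a = a ^ (p ^ n) := by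
  induction n with
  | zero =>
    rw [pow_zero, map_one, pow_zero, pow_one]
    rfl
  | succ n ih =>
    rw [pow_succ', map_mul]
    change ρη p φ (ρη p (φ ^ n) a) = _
    rw [ih, hφ]
    change f (a ^ p ^ n) = _
    rw [hf, ← pow_mul, ← pow_succ]

lemma inj_closure (φ : Gη p) (f : Gs p) (hf : IsFrob p f) (hφ : ρη p φ = ρs p f)
    (s : Gη p) (hs : s ∈ (Subgroup.zpowers φ).topologicalClosure) (h1 : toGs p s = 1) :
    s = 1 := by
  by_contra hne
  have hU : IsOpen ({s}ᶜ : Set (Gη p)) := isOpen_compl_singleton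
  obtain ⟨N, hN⟩ := ProfiniteGrp.exist_openNormalSubgroup_sub_open_nhds_of_one hU
    (show (1 : Gη p) ∈ ({s}ᶜ : Set (Gη p)) from fun h => hne h.symm)
  obtain ⟨m, hm, hmN⟩ := exists_pow_mem (N : Subgroup (Gη p)) N.isOpen' φ
  obtain ⟨a, ha⟩ := exists_detect p m hm
  have hopen : IsOpen ({g : Gη p | s⁻¹ * g ∈ (N : Subgroup (Gη p))} ∩ {g : Gη p | ρη p g a = a}) :=
    (N.isOpen'.preimage (continuous_const_mul s⁻¹)).inter (isOpen_fix p a)
  have hmem : s ∈ ({g : Gη p | s⁻¹ * g ∈ (N : Subgroup (Gη p))} ∩ {g : Gη p | ρη p g a = a}) := by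
    refine ⟨?_, ?_⟩
    · rw [Set.mem_ofPred_eq, inv_mul_cancel]
      exact one_mem _
    · have h2 := DFunLike.congr_fun h1 a
      exact h2
  have hcl : s ∈ closure (Subgroup.zpowers φ : Set (Gη p)) := hs
  obtain ⟨g, ⟨hg1, hg2⟩, hg3⟩ := mem_closure_iff.1 hcl _ hopen hmem
  obtain ⟨n, rfl⟩ := Subgroup.mem_zpowers_iff.1 hg3
  have hg2' : ρη p (φ ^ n.natAbs) a = a := by
    rcases Int.natAbs_eq n with h | h
    · rw [h, zpow_natCast] at hg2
      exact hg2
    · rw [h, zpow_neg, zpow_natCast] at hg2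
      have h3 : ρη p (φ ^ n.natAbs)⁻¹ a = a := hg2
      rw [map_inv] at h3
      exact ((RingEquiv.symm_apply_eq _).1 h3).symm
  rw [frob_pow_apply p φ f hf hφ] at hg2'
  obtain ⟨k, hk⟩ := ha _ hg2'
  have h4 : φ ^ n.natAbs ∈ (N : Subgroup (Gη p)) := by
    rw [hk, pow_mul]
    exact pow_mem hmN k
  have h5 : φ ^ n ∈ (N : Subgroup (Gη p)) := by
    rcases Int.natAbs_eq n with h | h
    · rw [h, zpow_natCast]
      exact h4
    · rw [h, zpow_neg, zpow_natCast]
      exact inv_mem h4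
  have h6 : s ∈ (N : Subgroup (Gη p)) := by
    have h7 := mul_mem h5 (inv_mem (show s⁻¹ * φ ^ n ∈ (N : Subgroup (Gη p)) from hg1))
    rw [mul_inv_rev, inv_inv, mul_inv_cancel_left] at h7
    exact h7
  exact hN h6 rfl

theorem exists_sec : Nonempty (Sec p) := by
  obtain ⟨f, hf⟩ := exists_frob p
  obtain ⟨φ, hφ⟩ := exists_lift p f
  set S : Subgroup (Gη p) := (Subgroup.zpowers φ).topologicalClosure with hS
  have hSc : IsClosed (S : Set (Gη p)) := Subgroup.isClosed_topologicalClosure _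
  have hmS : φ ∈ S := Subgroup.le_topologicalClosure _ (Subgroup.mem_zpowers φ)
  let F : S →* Gs p := (toGs p).comp S.subtype
  have hF : Function.Bijective F := by
    refine ⟨(injective_iff_map_eq_one F).2 fun s hs => Subtype.ext ?_, fun h => ?_⟩
    · exact inj_closure p φ f hf hφ s.1 s.2 hs
    · obtain ⟨s, hs, hs2⟩ := closed_frob' p φ f hf hφ S hSc hmS h
      exact ⟨⟨s, hs⟩, hs2⟩
  have hFc : Continuous F := (continuous_toGs p).comp continuous_subtype_val
  have : CompactSpace S := isCompact_iff_compactSpace.1 hSc.isCompact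
  let e : S ≃* Gs p := MulEquiv.ofBijective F hF
  let E : S ≃ₜ Gs p := Continuous.homeoOfEquivCompactToT2 (f := e.toEquiv) hFc
  refine ⟨⟨S.subtype.comp e.symm.toMonoidHom, ?_, ?_⟩⟩
  · exact continuous_subtype_val.comp E.symm.continuous
  · intro h
    refine RingEquiv.ext fun x => ?_
    have h1 : F (e.symm h) = h := e.apply_symm_apply h
    exact DFunLike.congr_fun h1 x

variable {p} {ℓ : ℕ} [Fact ℓ.Prime]

theorem Kum.exists_inertia (hℓ : ℓ ≠ p) (κ : Kum p ℓ) : ∃ g : Gη p, ρη p g = 1 ∧ κ.t g ≠ 0 := by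
  by_contra hcon
  push Not at hcon
  obtain ⟨f, hf⟩ := exists_frob p
  obtain ⟨φ, hφ⟩ := exists_lift p f
  have hp : p.Prime := Fact.out
  have hl : ℓ.Prime := Fact.out
  set T := κ.t φ with hT
  have hcf : ((cyc p ℓ φ : ℤ_[ℓ]ˣ) : ℤ_[ℓ]) = (p : ℤ_[ℓ]) := cyc_frob p ℓ hℓ φ f hf hφ
  have ht1 : κ.t 1 = 0 := by
    have h1 := κ.cocycle 1 1
    rw [mul_one, map_one, Units.val_one, one_mul] at h1
    exact left_eq_add.1 h1
  let H : Subgroup (Gη p) :=
    { carrier := {g | ((p : ℤ_[ℓ]) - 1) * κ.t g = T * (((cyc p ℓ g : ℤ_[ℓ]ˣ) : ℤ_[ℓ]) - 1)}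
      one_mem' := by
        rw [Set.mem_ofPred_eq, ht1, map_one, Units.val_one, sub_self, mul_zero, mul_zero]
      mul_mem' := by
        intro a b ha hb
        rw [Set.mem_ofPred_eq] at ha hb ⊢
        rw [κ.cocycle, map_mul, Units.val_mul]
        linear_combination ha + ((cyc p ℓ a : ℤ_[ℓ]ˣ) : ℤ_[ℓ]) * hb
      inv_mem' := by
        intro a ha
        rw [Set.mem_ofPred_eq] at ha ⊢
        have h1 := κ.cocycle a⁻¹ a
        rw [inv_mul_cancel, ht1] at h1
        have h2 : ((cyc p ℓ a⁻¹ : ℤ_[ℓ]ˣ) : ℤ_[ℓ]) * ((cyc p ℓ a : ℤ_[ℓ]ˣ) : ℤ_[ℓ]) = 1 := by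
          rw [← Units.val_mul, ← map_mul, inv_mul_cancel, map_one, Units.val_one]
        linear_combination (-((p : ℤ_[ℓ]) - 1)) * h1 -
          ((cyc p ℓ a⁻¹ : ℤ_[ℓ]ˣ) : ℤ_[ℓ]) * ha - T * h2 }
  have hχ : Continuous fun g => ((cyc p ℓ g : ℤ_[ℓ]ˣ) : ℤ_[ℓ]) :=
    Units.continuous_val.comp (cyclotomicCharacter.continuous ℓ ℚ_[p] (PadicAlgCl p))
  have hHc : IsClosed (H : Set (Gη p)) :=
    isClosed_eq (continuous_const.mul κ.continuous)
      (continuous_const.mul (hχ.sub continuous_const))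
  have hφH : φ ∈ H := by
    change _ = _
    rw [hcf, ← hT, mul_comm]
  have hI : ∀ g : Gη p, ρη p g = 1 → g ∈ H := by
    intro g hg
    change _ = _
    rw [hcon g hg, cyc_inertia p ℓ hℓ g hg, Units.val_one, sub_self, mul_zero, mul_zero]
  have hall : ∀ g : Gη p, g ∈ H := by
    intro g
    obtain ⟨s, hs, hs2⟩ := closed_frob' p φ f hf hφ H hHc hφH (toGs p g)
    have h1 : toGs p (s⁻¹ * g) = 1 := by
      rw [map_mul, map_inv, hs2, inv_mul_cancel]
    have h2 : ρη p (s⁻¹ * g) = 1 := RingEquiv.ext fun x => DFunLike.congr_fun h1 x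
    have h3 := mul_mem hs (hI _ h2)
    rw [mul_inv_cancel_left] at h3
    exact h3
  obtain ⟨n, hn⟩ : ∃ n : ℕ, p - 1 < ℓ ^ n := ⟨p - 1, Nat.lt_pow_self hl.one_lt⟩
  have : NeZero (ℓ ^ n) := ⟨pow_ne_zero _ hl.ne_zero⟩
  set z := κ.ζ n with hz
  have hzp := κ.ζ_prim n
  set B : ℕ := (PadicInt.toZModPow n (-T)).val with hB
  set u : PadicAlgCl p := κ.ϖ n ^ (p - 1) * z ^ B with hu
  have hfix : ∀ g : Gη p, g u = u := by
    intro g
    have h1 : ((p : ℤ_[ℓ]) - 1) * κ.t g = T * (((cyc p ℓ g : ℤ_[ℓ]ˣ) : ℤ_[ℓ]) - 1) := hall g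
    rw [hu, map_mul, map_pow, map_pow, κ.ht g n, cyc_spec p ℓ g n _ hzp.pow_eq_one, mul_pow,
      ← pow_mul, ← pow_mul, mul_right_comm, ← pow_add, mul_comm]
    congr 1
    rw [prim_pow_eq p ℓ hzp]
    push_cast [Nat.cast_sub hp.one_le]
    rw [hB]
    simp only [ZMod.natCast_val, ZMod.cast_id]
    have h2 := congrArg (PadicInt.toZModPow (p := ℓ) n) h1
    simp only [map_mul, map_sub, map_natCast, map_one, map_neg] at h2 ⊢
    linear_combination h2
  have hub := (InfiniteGalois.mem_bot_iff_fixed (k := ℚ_[p]) u).2 hfix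
  obtain ⟨c, hc⟩ := IntermediateField.mem_bot.1 hub
  have hϖ : ∀ k, κ.ϖ k ^ (ℓ ^ k) = p := by
    intro k
    induction k with
    | zero => rw [pow_zero, pow_one, κ.ϖ_zero]
    | succ k ih => rw [pow_succ', pow_mul, κ.ϖ_succ, ih]
  have hcu : ‖c‖ ^ (ℓ ^ n) = (p : ℝ)⁻¹ ^ (p - 1) := by
    have h1 : ‖algebraMap ℚ_[p] (PadicAlgCl p) c‖ = ‖c‖ := PadicAlgCl.norm_extends p c
    have h2 : u ^ (ℓ ^ n) = (p : PadicAlgCl p) ^ (p - 1) := by
      rw [hu, mul_pow, ← pow_mul, ← pow_mul, mul_comm (p - 1), mul_comm B, pow_mul, pow_mul, hϖ,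
        hzp.pow_eq_one, one_pow, mul_one]
    have h3 : ‖(p : PadicAlgCl p)‖ = (p : ℝ)⁻¹ := by
      rw [← map_natCast (algebraMap ℚ_[p] (PadicAlgCl p)), PadicAlgCl.norm_extends, Padic.norm_p]
    rw [← h1, hc, ← norm_pow, h2, norm_pow, h3]
  have hc0 : c ≠ 0 := by
    intro h
    rw [h, norm_zero, zero_pow (NeZero.ne _)] at hcu
    exact (pow_ne_zero _ (inv_ne_zero (by exact_mod_cast hp.ne_zero))) hcu.symm
  obtain ⟨k, hk⟩ := Padic.norm_eq_zpow_neg_valuation hc0 |> fun h => (⟨_, h⟩ : ∃ k : ℤ, ‖c‖ = (p : ℝ) ^ (-k))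
  rw [hk, ← zpow_natCast, ← zpow_mul, inv_pow, ← zpow_natCast, ← zpow_neg] at hcu
  have hp1 : (1 : ℝ) < p := by exact_mod_cast hp.one_lt
  have h9 := zpow_right_injective₀ (by positivity) hp1.ne' hcu
  have h10 : ((ℓ ^ n : ℕ) : ℤ) ∣ ((p - 1 : ℕ) : ℤ) := ⟨k, by linarith⟩
  have h11 : ℓ ^ n ∣ p - 1 := by exact_mod_cast h10
  have h12 : 0 < p - 1 := Nat.sub_pos_of_lt hp.one_lt
  exact absurd (Nat.le_of_dvd h12 h11) (by omega)

end Pool.Agent.H72.MP
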