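import Pool.Agent.H49.MP.WE2

/-!
Module W1 (weakly etale morphisms and fields).

* `flat_of_pure`: `R → R ⧸ J` is flat if for every `x ∈ J` there is `e ∈ J` with `x = x * e`
  (equational criterion of flatness), and conversely.
* `weaklyEtale_of_isSeparable`.  The kernel `J` of the multiplication `K ⊗[k] K → K` is generated
  by the elements `x_a = a ⊗ 1 - 1 ⊗ a` (`KaehlerDifferential.span_range_eq_ideal` or similar).  If `f` is the
  minimal polynomial of `a`, write `f = (X - a) g` in `K[X]`; then `h = g` evaluated at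
  `1 ⊗ a` (coefficients in `K ⊗ 1`) satisfies `x_a * h = 0` and the image of `h` in `K` is
  `f'(a) ≠ 0`.  So for every `x ∈ J` there is `h` with `x * h = 0` and image `1` in `K`.
* `exists_section_of_cover`: some member `f : T ⟶ Spec K` of the covering has `T` nonempty; let `Spec B` be a
  nonempty affine open of `T`.  `K → B` is weakly etale: flat, and `B ⊗[K] B → B` is flat.  Let `κ` be
  the residue field of a maximal ideal of `B`.  Claim: `κ = K`.  Otherwise there is `b` in `B` whose image `c` in
  `κ` is transcendental over `K`.  By flatness there is `e` in the kernel of `B ⊗ B → B` with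
  `(b ⊗ 1 - 1 ⊗ b) (1 - e) = 0`.  In `κ ⊗[K] κ` the image of `1 - e` is not zero, as its
  image in `κ` is `1`, but `c ⊗ 1 - 1 ⊗ c` is a non zero divisor of `κ ⊗[K] κ`: that ring is
  flat (even free) over `K(c) ⊗[K] K(c)`, a localization of the domain `K[s, t]`, in which `s - t ≠ 0`.
-/

open CategoryTheory Limits AlgebraicGeometry

namespace Pool.Agent.H72.MP

theorem weaklyEtale_of_isSeparable (k K : Type) [Field k] [Field K] [Algebra k K]
    [Algebra.IsSeparable k K] :
    WeaklyEtale (Spec.map (CommRingCat.ofHom (algebraMap k K))) :=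
  Pool.Agent.H49.MP.weaklyEtale_of_isSeparable k K

theorem exists_section_of_cover (K : Type) [Field K] [IsAlgClosed K]
    (R : Presieve (Spec (.of K))) (hR : R ∈ Scheme.proetalePrecoverage (Spec (.of K))) :
    ∃ (T : Scheme.{0}) (f : T ⟶ Spec (.of K)) (_ : R f) (s : Spec (.of K) ⟶ T),
      s ≫ f = 𝟙 _ := by
  have hR' : R ∈ Scheme.precoverage @WeaklyEtale (Spec (.of K)) :=
    Scheme.propQCPrecoverage_le_precoverage _ hR
  obtain ⟨T, f, hf, v, -⟩ := (Presieve.mem_comap_jointlySurjectivePrecoverage_iff _).1 hR'.1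
    (IsLocalRing.closedPoint K : PrimeSpectrum K)
  have : WeaklyEtale f := hR'.2 hf
  obtain ⟨s, hs, -⟩ := Pool.Agent.H49.MP.exists_section_of_weaklyEtale f v
  exact ⟨T, f, hf, s, hs⟩

end Pool.Agent.H72.MP
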