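import Pool.Agent.H72.MP.Mod.C1Alg

/-!
# Local part of module C1
-/

open CategoryTheory Limits AlgebraicGeometry TensorProduct Opposite

namespace Pool.Agent.H72.MP.C1

/-- the canonical map from the fibre of `V` to the fibre of `T` -/
noncomputable abbrev canon {k : Type} [Field k] {X T V : Scheme.{0}} (π : T ⟶ X)
    (x : Spec (.of k) ⟶ X) (g : V ⟶ T) : pullback (g ≫ π) x ⟶ pullback π x :=
  pullback.lift (pullback.fst (g ≫ π) x ≫ g) (pullback.snd (g ≫ π) x)
    (by rw [Category.assoc]; exact pullback.condition)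

/-- maps to an affine scheme -/
lemma exists_eq_toSpecΓ {F : Scheme.{0}} {R : CommRingCat.{0}} (f : F ⟶ Spec R) :
    f = F.toSpecΓ ≫ Spec.map ((Scheme.ΓSpecIso R).inv ≫ f.appTop) := by
  rw [Spec.map_comp, ← Category.assoc, ← Scheme.toSpecΓ_naturality, Category.assoc,
    toSpecΓ_SpecMap_ΓSpecIso_inv, Category.comp_id]

lemma toSpecΓ_inj {F : Scheme.{0}} {R : CommRingCat.{0}} {a b : R ⟶ Γ(F, ⊤)}
    (h : F.toSpecΓ ≫ Spec.map a = F.toSpecΓ ≫ Spec.map b) : a = b := by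
  have h1 : ∀ a : R ⟶ Γ(F, ⊤), (Scheme.ΓSpecIso R).inv ≫ (F.toSpecΓ ≫ Spec.map a).appTop = a := by
    intro a
    rw [Scheme.Hom.comp_appTop, Scheme.toSpecΓ_appTop, ← Category.assoc]
    rw [← Scheme.ΓSpecIso_inv_naturality, Category.assoc, Iso.inv_hom_id, Category.comp_id]
  rw [← h1 a, ← h1 b, h]

theorem exists_local {k : Type} [Field k] {X : Scheme.{0}}
    (s : X ⟶ Spec (.of k)) (x : Spec (.of k) ⟶ X) [IsClosedImmersion x] (hx : x ≫ s = 𝟙 _)
    {T : Scheme.{0}} (π : T ⟶ X) [WeaklyEtale π] {U : T.Opens} (hU : IsAffineOpen U)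
    {W : Scheme.{0}} (r : W ⟶ pullback π x) [WeaklyEtale r] {V : W.Opens} (hV : IsAffineOpen V)
    (e : V ≤ r ⁻¹ᵁ (pullback.fst π x ⁻¹ᵁ U)) :
    ∃ (Z : Scheme.{0}) (g : Z ⟶ T), WeaklyEtale g ∧ IsAffine Z ∧
      (∃ h : pullback (g ≫ π) x ⟶ W, h ≫ r = canon π x g) ∧ (∀ z : Z, g z ∈ U) ∧
      ∀ v : W, v ∈ V → ∃ z : Z, g z = pullback.fst π x (r v) := by
  have hU' : IsAffineOpen (pullback.fst π x ⁻¹ᵁ U) := hU.preimage _
  -- the rings
  let A := Γ(T, U)
  let C := Γ(pullback π x, pullback.fst π x ⁻¹ᵁ U)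
  let B := Γ(W, V)
  let f1 : A ⟶ C := (pullback.fst π x).appLE U (pullback.fst π x ⁻¹ᵁ U) le_rfl
  let f2 : C ⟶ B := r.appLE _ V e
  have hf1 : Function.Surjective f1 := by
    have := (pullback.fst π x).app_surjective _ hU
    simpa [f1, Scheme.Hom.appLE_eq_app] using this
  have E1 : Spec.map f1 ≫ hU.fromSpec = hU'.fromSpec ≫ pullback.fst π x :=
    IsAffineOpen.SpecMap_appLE_fromSpec _ hU hU' le_rfl
  have E2 : Spec.map f2 ≫ hU'.fromSpec = hV.fromSpec ≫ r :=
    IsAffineOpen.SpecMap_appLE_fromSpec _ hU' hV e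
  -- structure maps over `k`
  obtain ⟨a, ha⟩ := Spec.map_surjective (hU.fromSpec ≫ π ≫ s)
  have hp : pullback.fst π x ≫ π ≫ s = pullback.snd π x := by
    rw [← Category.assoc, pullback.condition, Category.assoc, hx, Category.comp_id]
  have EC : Spec.map (a ≫ f1) = hU'.fromSpec ≫ pullback.snd π x := by
    rw [Spec.map_comp, ha, ← Category.assoc, E1, Category.assoc, hp]
  have EB : Spec.map (a ≫ f1 ≫ f2) = hV.fromSpec ≫ r ≫ pullback.snd π x := by
    rw [← Category.assoc, Spec.map_comp, EC, ← Category.assoc, E2, Category.assoc]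
  let _ : Algebra k A := a.hom.toAlgebra
  let _ : Algebra k C := (a ≫ f1).hom.toAlgebra
  let _ : Algebra k B := (a ≫ f1 ≫ f2).hom.toAlgebra
  let α : A →ₐ[k] C := { f1.hom with commutes' := fun _ => rfl }
  let β : C →ₐ[k] B := { f2.hom with commutes' := fun _ => rfl }
  have wC : Algebra.WeaklyEtale k C := by
    rw [← Pool.Agent.H49.MP.weaklyEtale_SpecMap_iff]
    have : WeaklyEtale (Spec.map (a ≫ f1)) := by rw [EC]; infer_instance
    exact this
  have wB : Algebra.WeaklyEtale k B := by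
    rw [← Pool.Agent.H49.MP.weaklyEtale_SpecMap_iff]
    have : WeaklyEtale (Spec.map (a ≫ f1 ≫ f2)) := by rw [EB]; infer_instance
    exact this
  have wR : Algebra.WeaklyEtale A (Rb α β) := weaklyEtale_fromA α β
  let RR : CommRingCat.{0} := .of (Rb α β)
  let gA : A ⟶ RR := CommRingCat.ofHom (fromA α β)
  let gB : B ⟶ RR := CommRingCat.ofHom (fromB α β)
  let tB : RR ⟶ B := CommRingCat.ofHom (toB α β)
  have hg1 : WeaklyEtale (Spec.map gA) := by
    have : WeaklyEtale (Spec.map (CommRingCat.ofHom (algebraMap A (Rb α β)))) := by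
      rw [Pool.Agent.H49.MP.weaklyEtale_SpecMap_iff]
      exact wR
    rw [algebraMap_eq_fromA] at this
    exact this
  have htB : gA ≫ tB = f1 ≫ f2 := by
    ext y
    exact congrFun (congrArg DFunLike.coe (toB_comp_fromA α β)) y
  refine ⟨Spec RR, Spec.map gA ≫ hU.fromSpec, inferInstance, inferInstance, ?_, ?_, ?_⟩
  · refine ⟨pullback.fst _ x ≫ Spec.map gB ≫ hV.fromSpec, ?_⟩
    let F := pullback ((Spec.map gA ≫ hU.fromSpec) ≫ π) x
    let p : F ⟶ Spec RR := pullback.fst _ x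
    let c : F ⟶ pullback π x := canon π x (Spec.map gA ≫ hU.fromSpec)
    have hc : c ≫ pullback.fst π x = p ≫ Spec.map gA ≫ hU.fromSpec := pullback.lift_fst _ _ _
    have hrange : Set.range c ⊆ Set.range hU'.fromSpec := by
      rw [hU'.range_fromSpec]
      rintro _ ⟨z, rfl⟩
      show pullback.fst π x (c z) ∈ U
      rw [← Scheme.Hom.comp_apply, hc, Scheme.Hom.comp_apply, Scheme.Hom.comp_apply]
      have : hU.fromSpec (Spec.map gA (p z)) ∈ Set.range hU.fromSpec := ⟨_, rfl⟩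
      rw [hU.range_fromSpec] at this
      exact this
    let l : F ⟶ Spec C := IsOpenImmersion.lift hU'.fromSpec c hrange
    have hl : l ≫ hU'.fromSpec = c := IsOpenImmersion.lift_fac _ _ _
    obtain ⟨φ, hφ⟩ : ∃ φ : RR ⟶ Γ(F, ⊤), p = F.toSpecΓ ≫ Spec.map φ := ⟨_, exists_eq_toSpecΓ p⟩
    obtain ⟨ψ, hψ⟩ : ∃ ψ : C ⟶ Γ(F, ⊤), l = F.toSpecΓ ≫ Spec.map ψ := ⟨_, exists_eq_toSpecΓ l⟩
    have h1 : gA ≫ φ = f1 ≫ ψ := by
      apply toSpecΓ_inj
      rw [Spec.map_comp, Spec.map_comp, ← Category.assoc, ← Category.assoc, ← hφ, ← hψ,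
        ← cancel_mono hU.fromSpec, Category.assoc, Category.assoc, E1, ← hc, ← Category.assoc, hl]
    have h2 : (φ.hom.comp (fromB α β)).comp β.toRingHom = ψ.hom := by
      apply fibre_eq α β hf1 φ.hom ψ.hom
      have := congrArg CommRingCat.Hom.hom h1
      exact this
    have h3 : f2 ≫ gB ≫ φ = ψ := by
      ext y
      exact congrFun (congrArg DFunLike.coe h2) y
    have h4 : p ≫ Spec.map gB ≫ Spec.map f2 = l := by
      rw [hφ, hψ, ← h3, Spec.map_comp, Spec.map_comp]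
      simp only [Category.assoc]
    show (p ≫ Spec.map gB ≫ hV.fromSpec) ≫ r = c
    rw [← hl, ← h4]
    simp only [Category.assoc]
    rw [E2]
  · intro z
    rw [Scheme.Hom.comp_apply]
    have : hU.fromSpec (Spec.map gA z) ∈ Set.range hU.fromSpec := ⟨_, rfl⟩
    rw [hU.range_fromSpec] at this
    exact this
  · intro v hv
    obtain ⟨v', hv'⟩ : v ∈ Set.range hV.fromSpec := by rw [hV.range_fromSpec]; exact hv
    refine ⟨Spec.map tB v', ?_⟩
    rw [← hv', ← Scheme.Hom.comp_apply, ← Scheme.Hom.comp_apply, ← Scheme.Hom.comp_apply,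
      ← Category.assoc, ← Spec.map_comp, htB, Spec.map_comp, Category.assoc, E1, ← Category.assoc,
      E2, Category.assoc]

end Pool.Agent.H72.MP.C1
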