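import Mathlib
import Pool.Agent.H72.MP.Mod.W1
import Pool.Agent.H72.MP.Mod.C1Loc

/-!
Module C1 (pro-etale coverings of the fibre of a weakly etale scheme over a rational point
extend).

`x : Spec k ⟶ X` is a closed immersion and a section of `s : X ⟶ Spec k`, `T` is weakly etale over `X` and
`R` is a pro-etale covering of the fibre `T_x`.  There is a pro-etale covering `R'` of `T` such that the
fibre over `x` of every member of `R'` is empty or maps to a member of `R` (over `T_x`).

Proof.
1. Reduction to `T = Spec A` affine: cover `T` by affine opens, restrict `R` to them (precoverage stable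
   under base change and composition).
2. `T_x = Spec C`, `C = A / I` with `I` finitely generated (`X` is locally noetherian, so `x` is locally
   of finite presentation), hence `T \ T_x` is quasi-compact.  `C` is weakly etale over `k` (base
   change of `T ⟶ X`).
3. The covering `R` of the affine scheme `Spec C` is refined by finitely many `Spec B_b ⟶ Spec C`,
   weakly etale, each mapping to a member of `R`, jointly surjective (quasi-compactness condition in
   `Scheme.proetalePrecoverage = propQCPrecoverage @WeaklyEtale`).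
4. Fix `b`, `B = B_b`.  `D = A ⊗[k] B` is weakly etale over `A` (`B` is weakly etale over `k`).  Let `J` be the
   kernel of `C ⊗[k] B → B`, `c ⊗ b ↦ c b`.  This surjection is flat, since it is the base
   change of `C ⊗[k] C → C`.  Hence for every `y ∈ J` there is `e ∈ J` with `y (1 - e) = 0`.
   Let `M ⊆ D` be the preimage of `1 + J` and `R_b = M⁻¹ D`.  `R_b` is weakly etale over `A`,
   and `R_b / I R_b = (1 + J)⁻¹ (C ⊗[k] B) = B`.  So the fibre of `Spec R_b` over `x` is
   `Spec B_b` over `Spec C`.
5. `R'` consists of the `Spec R_b ⟶ T` and of the open immersion `T \ T_x ⟶ T`.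

(In the formal proof `R'` is the presieve of all weakly etale `V ⟶ T` which have the required property,
`M` is the set of all `m` in `D` whose image in `B` is `1`; files `C1Alg` and `C1Loc`.)
-/

open CategoryTheory Limits AlgebraicGeometry

namespace Pool.Agent.H72.MP

theorem C1.isEmpty_pullback {S Y Z : Scheme.{0}} (a : Y ⟶ S) (b : Z ⟶ S)
    (h : ∀ y : Y, a y ∉ Set.range b) : IsEmpty (pullback a b : Scheme.{0}) := by
  refine ⟨fun y => h (pullback.fst a b y) ⟨pullback.snd a b y, ?_⟩⟩
  rw [← Scheme.Hom.comp_apply, ← Scheme.Hom.comp_apply, pullback.condition]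

theorem exists_cover_of_point (k : Type) [Field k] {X : Scheme.{0}} [IsLocallyNoetherian X]
    (s : X ⟶ Spec (.of k)) (x : Spec (.of k) ⟶ X) [IsClosedImmersion x] (hx : x ≫ s = 𝟙 _)
    {T : Scheme.{0}} (π : T ⟶ X) [WeaklyEtale π]
    (R : Presieve (pullback π x)) (hR : R ∈ Scheme.proetalePrecoverage (pullback π x)) :
    ∃ R' ∈ Scheme.proetalePrecoverage T, ∀ (V : Scheme.{0}) (g : V ⟶ T), R' g →
      IsEmpty (pullback (g ≫ π) x : Scheme.{0}) ∨
      ∃ (W : Scheme.{0}) (r : W ⟶ pullback π x) (_ : R r) (h : pullback (g ≫ π) x ⟶ W),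
        h ≫ r = pullback.lift (pullback.fst (g ≫ π) x ≫ g) (pullback.snd (g ≫ π) x)
          (by rw [Category.assoc]; exact pullback.condition) := by
  classical
  -- the open complement of the point
  let O : X.Opens := ⟨(Set.range x)ᶜ, x.isClosedEmbedding.isClosed_range.isOpen_compl⟩
  -- the covering `R`
  let ER : PreZeroHypercover (pullback π x) := R.preZeroHypercover
  have hER : QuasiCompactCover ER := by
    rw [← Scheme.presieve₀_mem_qcPrecoverage_iff, Presieve.presieve₀_preZeroHypercover]
    exact hR.1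
  have hRwe : ∀ ⦃W : Scheme.{0}⦄ (r : W ⟶ pullback π x), R r → WeaklyEtale r :=
    fun W r hr => hR.2.2 hr
  -- the presieve of all good morphisms
  let R' : Presieve T := fun V g => WeaklyEtale g ∧
    (IsEmpty (pullback (g ≫ π) x : Scheme.{0}) ∨
      ∃ (W : Scheme.{0}) (r : W ⟶ pullback π x) (_ : R r) (h : pullback (g ≫ π) x ⟶ W),
        h ≫ r = C1.canon π x g)
  -- the main point
  have key : ∀ {U : T.Opens}, IsAffineOpen U →
      ∃ (κ : Type) (_ : Finite κ) (Z : κ → Scheme.{0}) (g : ∀ i, Z i ⟶ T),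
        (∀ i, CompactSpace (Z i)) ∧ (∀ i, R' (g i)) ∧ (∀ i (z : Z i), g i z ∈ U) ∧
        ∀ t : T, t ∈ U → ∃ i, ∃ z : Z i, g i z = t := by
    intro U hU
    have hU' : IsAffineOpen (pullback.fst π x ⁻¹ᵁ U) := hU.preimage _
    obtain ⟨n, f, V, hV, hcov⟩ :=
      QuasiCompactCover.exists_isAffineOpen_of_isCompact ER hU'.isCompact
    have hle : ∀ i, V i ≤ ER.f (f i) ⁻¹ᵁ (pullback.fst π x ⁻¹ᵁ U) := by
      intro i v hv
      have : ER.f (f i) v ∈ ((pullback.fst π x ⁻¹ᵁ U : (pullback π x).Opens) : Set _) := by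
        rw [← hcov]
        exact Set.mem_iUnion.2 ⟨i, v, hv, rfl⟩
      exact this
    have hmem : ∀ i, R (ER.f (f i)) := fun i => (f i).2
    have hwe : ∀ i, WeaklyEtale (ER.f (f i)) := fun i => hRwe _ (hmem i)
    choose Z g hg hZ hh hgU hgs using fun i =>
      C1.exists_local s x hx π hU (ER.f (f i)) (hV i) (hle i)
    let Z0 : Scheme.{0} := pullback (U.ι ≫ π) O.ι
    let g0 : Z0 ⟶ T := pullback.fst (U.ι ≫ π) O.ι ≫ U.ι
    have : IsAffine U := hU
    have hZ0 : CompactSpace Z0 := inferInstance
    refine ⟨Option (Fin n), inferInstance, fun i => i.elim Z0 Z,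
      fun i => match i with | none => g0 | some i => g i, ?_, ?_, ?_, ?_⟩
    · rintro (_ | i)
      · exact hZ0
      · have := hZ i
        show CompactSpace (Z i)
        infer_instance
    · rintro (_ | i)
      · have hg0 : R' g0 := by
          refine ⟨inferInstance, Or.inl ?_⟩
          refine C1.isEmpty_pullback (g0 ≫ π) x (fun z => ?_)
          have h2 : g0 ≫ π = pullback.snd (U.ι ≫ π) O.ι ≫ O.ι := by
            rw [Category.assoc, pullback.condition]
          rw [h2, Scheme.Hom.comp_apply]
          exact (pullback.snd (U.ι ≫ π) O.ι z).2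
        exact hg0
      · exact ⟨hg i, Or.inr ⟨_, ER.f (f i), hmem i, hh i⟩⟩
    · rintro (_ | i) z
      · exact (pullback.fst (U.ι ≫ π) O.ι z).2
      · exact hgU i z
    · intro t ht
      by_cases hO : π t ∈ Set.range x
      · obtain ⟨p, hp⟩ := hO
        obtain ⟨y, hy, -⟩ := Scheme.Pullback.exists_preimage_pullback (f := π) (g := x) t p hp.symm
        have hyU : y ∈ ((pullback.fst π x ⁻¹ᵁ U : (pullback π x).Opens) : Set _) := by
          show pullback.fst π x y ∈ U
          rw [hy]; exact ht
        rw [← hcov] at hyU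
        obtain ⟨i, v, hv, hvy⟩ := Set.mem_iUnion.1 hyU
        obtain ⟨z, hz⟩ := hgs i v hv
        refine ⟨some i, z, ?_⟩
        show g i z = t
        rw [hz, ← hy]
        exact congrArg _ hvy
      · obtain ⟨z, hz, -⟩ := Scheme.Pullback.exists_preimage_pullback (f := U.ι ≫ π) (g := O.ι)
          (⟨t, ht⟩ : U) (⟨π t, hO⟩ : O) (Scheme.Hom.comp_apply U.ι π (⟨t, ht⟩ : U))
        refine ⟨none, z, ?_⟩
        show (pullback.fst (U.ι ≫ π) O.ι ≫ U.ι) z = t
        rw [Scheme.Hom.comp_apply, hz]
        rfl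
  refine ⟨R', ⟨?_, ?_, ?_⟩, fun V g hg => hg.2⟩
  · rw [← Presieve.presieve₀_preZeroHypercover R', Scheme.presieve₀_mem_qcPrecoverage_iff]
    refine ⟨fun {U} hU => ?_⟩
    obtain ⟨κ, _, Z, g, hc, hg, hgU, hgs⟩ := key hU
    refine IsCompactOpenCovered.of_finite (κ := κ) (fun i => (⟨⟨Z i, g i⟩, hg i⟩ : R'.uncurry))
      (fun i => ⊤) (fun i => ?_) ?_
    · have := hc i
      exact isCompact_univ (X := Z i)
    · ext t
      simp only [Set.mem_iUnion, Set.mem_image]
      constructor
      · rintro ⟨i, z, -, rfl⟩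
        exact hgU i z
      · intro ht
        obtain ⟨i, z, hz⟩ := hgs t ht
        exact ⟨i, z, trivial, hz⟩
  · refine (Presieve.mem_comap_jointlySurjectivePrecoverage_iff _).2 (fun t => ?_)
    obtain ⟨_, ⟨U, hU, rfl⟩, htU, -⟩ := T.isBasis_affineOpens.exists_subset_of_mem_open
      (Set.mem_univ t) isOpen_univ
    obtain ⟨κ, _, Z, g, hc, hg, hgU, hgs⟩ := key hU
    obtain ⟨i, z, hz⟩ := hgs t htU
    exact ⟨Z i, g i, hg i, z, hz⟩
  · intro V g hg
    exact hg.1

end Pool.Agent.H72.MP
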