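import Pool.Agent.H72.MP.Mod.W1

/-!
# Algebra for module C1: extending weakly etale algebras from a closed fibre
-/

open TensorProduct

namespace Pool.Agent.H72.MP.C1

/-- A localization is weakly étale. -/
theorem weaklyEtale_localization (R : Type*) [CommRing R] (M : Submonoid R) (S : Type*) [CommRing S]
    [Algebra R S] [IsLocalization M S] : Algebra.WeaklyEtale R S where
  flat := IsLocalization.flat S M
  flat_lmul' := by
    apply RingHom.Flat.of_bijective
    exact IsLocalization.bijective_linearMap_mul' M S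

variable {k A C B : Type} [CommRing k] [CommRing A] [CommRing C] [CommRing B]
  [Algebra k A] [Algebra k C] [Algebra k B] (α : A →ₐ[k] C) (β : C →ₐ[k] B)

/-- The map `A ⊗ B → B`, `a ⊗ b ↦ β (α a) * b`. -/
noncomputable def mu : A ⊗[k] B →ₐ[k] B :=
  Algebra.TensorProduct.lift (β.comp α) (AlgHom.id k B) (fun _ _ => Commute.all _ _)

@[simp] lemma mu_tmul (a : A) (b : B) : mu α β (a ⊗ₜ b) = β (α a) * b := by
  simp [mu]

/-- the elements which are mapped to `1` -/
noncomputable def MM : Submonoid (A ⊗[k] B) := MonoidHom.mker (mu α β : A ⊗[k] B →* B)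

lemma mem_MM {x : A ⊗[k] B} : x ∈ MM α β ↔ mu α β x = 1 := Iff.rfl

/-- the extension of `B` to a weakly étale algebra over `A` -/
abbrev Rb : Type := Localization (MM α β)

/-- `A → Rb` -/
noncomputable def fromA : A →+* Rb α β :=
  (algebraMap (A ⊗[k] B) (Rb α β)).comp
    (Algebra.TensorProduct.includeLeft : A →ₐ[k] A ⊗[k] B).toRingHom

/-- `B → Rb` -/
noncomputable def fromB : B →+* Rb α β :=
  (algebraMap (A ⊗[k] B) (Rb α β)).comp
    (Algebra.TensorProduct.includeRight : B →ₐ[k] A ⊗[k] B).toRingHom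

/-- `Rb → B` -/
noncomputable def toB : Rb α β →+* B :=
  IsLocalization.lift (M := MM α β) (g := ((mu α β : A ⊗[k] B →ₐ[k] B) : A ⊗[k] B →+* B))
    (fun y => by
      have : mu α β y = 1 := y.2
      show IsUnit (mu α β y)
      rw [this]; exact isUnit_one)

lemma toB_comp_fromA : (toB α β).comp (fromA α β) = (β.toRingHom).comp α.toRingHom := by
  ext a
  simp [toB, fromA]

lemma toB_comp_fromB : (toB α β).comp (fromB α β) = RingHom.id B := by
  ext a
  simp [toB, fromB]

theorem algebraMap_eq_fromA : algebraMap A (Rb α β) = fromA α β := by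
  rw [IsScalarTower.algebraMap_eq A (A ⊗[k] B) (Rb α β)]
  rfl

theorem weaklyEtale_fromA [Algebra.WeaklyEtale k B] : Algebra.WeaklyEtale A (Rb α β) := by
  have : Algebra.WeaklyEtale (A ⊗[k] B) (Rb α β) := weaklyEtale_localization _ (MM α β) _
  exact Algebra.WeaklyEtale.trans A (A ⊗[k] B) (Rb α β)

/-- On the fibre, the two maps from `C` agree. -/
theorem fibre_eq (hα : Function.Surjective α) [Algebra.WeaklyEtale k C] {G : Type} [CommRing G]
    (φ : Rb α β →+* G) (ψ : C →+* G) (h : φ.comp (fromA α β) = ψ.comp α.toRingHom) :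
    (φ.comp (fromB α β)).comp β.toRingHom = ψ := by
  -- the algebra structure of `G` over `k`
  let _ : Algebra k G := (ψ.comp (algebraMap k C)).toAlgebra
  let ψ' : C →ₐ[k] G := { ψ with commutes' := fun r => rfl }
  let φB : B →ₐ[k] G := { φ.comp (fromB α β) with
    commutes' := fun r => by
      show φ (algebraMap (A ⊗[k] B) (Rb α β) (1 ⊗ₜ algebraMap k B r)) = ψ (algebraMap k C r)
      have h1 : (1 : A) ⊗ₜ[k] algebraMap k B r = algebraMap k A r ⊗ₜ[k] (1 : B) := by
        rw [Algebra.algebraMap_eq_smul_one, Algebra.algebraMap_eq_smul_one, TensorProduct.smul_tmul]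
      rw [h1]
      have h2 := congrFun (congrArg DFunLike.coe h) (algebraMap k A r)
      have h3 : (φ.comp (fromA α β)) (algebraMap k A r) =
        φ (algebraMap (A ⊗[k] B) (Rb α β) (algebraMap k A r ⊗ₜ[k] (1 : B))) := rfl
      rw [← h3, h2]
      show ψ (α (algebraMap k A r)) = _
      rw [α.commutes] }
  -- the map from `C ⊗ B`
  let Θ : C ⊗[k] B →ₐ[k] G := Algebra.TensorProduct.lift ψ' φB (fun _ _ => Commute.all _ _)
  have hΘ : ∀ w : A ⊗[k] B, Θ (Algebra.TensorProduct.map α (AlgHom.id k B) w) =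
      φ (algebraMap _ _ w) := by
    intro w
    induction w with
    | zero => simp
    | tmul a b =>
      have h4 : (a ⊗ₜ[k] b : A ⊗[k] B) = (a ⊗ₜ[k] (1 : B)) * ((1 : A) ⊗ₜ[k] b) := by simp
      have h5 := congrFun (congrArg DFunLike.coe h) a
      have h6 : ψ (α a) = φ (algebraMap (A ⊗[k] B) (Rb α β) (a ⊗ₜ[k] (1 : B))) := h5.symm
      rw [h4, map_mul, map_mul, map_mul, map_mul, ← h6]
      simp only [Algebra.TensorProduct.map_tmul, AlgHom.coe_id, id_eq, map_one,
        Algebra.TensorProduct.lift_tmul, Θ, mul_one, one_mul]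
      rfl
    | add x y hx hy => rw [map_add, map_add, map_add, map_add, hx, hy]
  ext c
  show φB (β c) = ψ' c
  obtain ⟨y, hy, hxy⟩ := Pool.Agent.H49.MP.exists_mul_eq_of_weaklyEtale k C
      (c ⊗ₜ[k] (1 : C) - (1 : C) ⊗ₜ[k] c) (by simp)
  -- transport to `C ⊗ B`
  let y' : C ⊗[k] B := Algebra.TensorProduct.map (AlgHom.id k C) β y
  have hxy' : (c ⊗ₜ[k] (1 : B) - (1 : C) ⊗ₜ[k] β c) * (1 - y') = 0 := by
    have := congrArg (Algebra.TensorProduct.map (AlgHom.id k C) β) hxy
    rw [map_mul] at this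
    simp only [map_sub, Algebra.TensorProduct.map_tmul, AlgHom.coe_id, id_eq, map_one] at this
    rw [mul_sub, mul_one, ← this, sub_self]
  obtain ⟨z, hz⟩ : ∃ z : A ⊗[k] B, Algebra.TensorProduct.map α (AlgHom.id k B) z = y' := by
    have : Function.Surjective (TensorProduct.map α.toLinearMap (LinearMap.id : B →ₗ[k] B)) :=
      TensorProduct.map_surjective hα Function.surjective_id
    obtain ⟨z, hz⟩ := this y'
    exact ⟨z, hz⟩
  have hmuz : mu α β z = 0 := by
    let ν : C ⊗[k] B →ₐ[k] B :=
      Algebra.TensorProduct.lift β (AlgHom.id k B) (fun _ _ => Commute.all _ _)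
    have h7 : ∀ w : A ⊗[k] B, ν (Algebra.TensorProduct.map α (AlgHom.id k B) w) = mu α β w := by
      intro w
      induction w with
      | zero => simp
      | tmul a b => simp [ν]
      | add x y hx hy => rw [map_add, map_add, map_add, hx, hy]
    have h8 : ∀ w : C ⊗[k] C, ν (Algebra.TensorProduct.map (AlgHom.id k C) β w) =
        β (Algebra.TensorProduct.lmul' k (S := C) w) := by
      intro w
      induction w with
      | zero => simp
      | tmul a b => simp [ν]
      | add x y hx hy => rw [map_add, map_add, map_add, map_add, hx, hy]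
    rw [← h7, hz]
    show ν (Algebra.TensorProduct.map (AlgHom.id k C) β y) = 0
    rw [h8, hy, map_zero]
  have hunit : IsUnit (1 - Θ y') := by
    have h9 : (1 - z) ∈ MM α β := by
      rw [mem_MM, map_sub, map_one, hmuz, sub_zero]
    have h10 := IsLocalization.map_units (Rb α β) (⟨1 - z, h9⟩ : MM α β)
    have h11 := h10.map φ
    have h12 : φ (algebraMap (A ⊗[k] B) (Rb α β) (1 - z)) = 1 - Θ y' := by
      rw [← hΘ, map_sub, map_one, map_sub, map_one, hz]
    rw [← h12]
    exact h11
  have h13 := congrArg Θ hxy'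
  rw [map_mul, map_sub, map_sub, map_one, map_zero] at h13
  have h14 : Θ (c ⊗ₜ[k] (1 : B)) = ψ' c := by simp [Θ]
  have h15 : Θ ((1 : C) ⊗ₜ[k] β c) = φB (β c) := by simp [Θ]
  rw [h14, h15] at h13
  exact (sub_eq_zero.1 ((hunit.mul_left_eq_zero).1 h13)).symm

end Pool.Agent.H72.MP.C1
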